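import Pool.Agent.W2helper22.ETS.Stm
import Pool.Agent.W2helper77.ET.Mom

set_option autoImplicit false

/-!
# Piece MOMS of the project ETS: second moment of the number of hit triangles, shapes with sides 1
allowed
-/

namespace Pool.Agent.W2helper75.ETS

open Finset Pool.Agent.W2helper22.SM Pool.Agent.W2helper22.ET Pool.Agent.W2helper77.ET
open Pool.Agent.W2helper22.ETS (SpreadS P_MOMS)

section moment

variable {V B : Type} [Fintype V] [DecidableEq V] [Fintype B] [DecidableEq B]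

omit [Fintype V] in
/-- the sum over the second triangle -/
theorem sum_second' (T : Finset (V × V × V)) {α0 α1 α2 : ℝ} (p0 : 0 < α0) (p1 : 0 < α1)
    (p2 : 0 < α2) (c3 : 1 ≤ 64 * (α0 * α1 * α2 * T.card))
    (c01 : ∀ x y, ((T.filter fun p => p.1 = x ∧ p.2.1 = y).card : ℝ) ≤ 16 * (α0 * α1 * T.card))
    (c02 : ∀ x z, ((T.filter fun p => p.1 = x ∧ p.2.2 = z).card : ℝ) ≤ 16 * (α0 * α2 * T.card))
    (c12 : ∀ y z, ((T.filter fun p => p.2.1 = y ∧ p.2.2 = z).card : ℝ) ≤ 16 * (α1 * α2 * T.card))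
    (c0 : ∀ x, ((T.filter fun p => p.1 = x).card : ℝ) ≤ 4 * (α0 * T.card))
    (c1 : ∀ y, ((T.filter fun p => p.2.1 = y).card : ℝ) ≤ 4 * (α1 * T.card))
    (c2 : ∀ z, ((T.filter fun p => p.2.2 = z).card : ℝ) ≤ 4 * (α2 * T.card))
    (p : V × V × V) (hp : p ∈ T) :
    ∑ q ∈ T, (α0 ^ 2 + if p.1 = q.1 then α0 else 0) *
        (α1 ^ 2 + if p.2.1 = q.2.1 then α1 else 0) *
        (α2 ^ 2 + if p.2.2 = q.2.2 then α2 else 0) ≤
      125 * (T.card * (α0 * α1 * α2) ^ 2) := by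
  have e : ∀ q ∈ T, (α0 ^ 2 + if p.1 = q.1 then α0 else 0) *
        (α1 ^ 2 + if p.2.1 = q.2.1 then α1 else 0) *
        (α2 ^ 2 + if p.2.2 = q.2.2 then α2 else 0) =
      (α0 * α1 * α2) ^ 2 + α0 * α1 ^ 2 * α2 ^ 2 * (if q.1 = p.1 then 1 else 0) +
      α0 ^ 2 * α1 * α2 ^ 2 * (if q.2.1 = p.2.1 then 1 else 0) +
      α0 ^ 2 * α1 ^ 2 * α2 * (if q.2.2 = p.2.2 then 1 else 0) +
      α0 * α1 * α2 ^ 2 * (if q.1 = p.1 ∧ q.2.1 = p.2.1 then 1 else 0) +
      α0 * α1 ^ 2 * α2 * (if q.1 = p.1 ∧ q.2.2 = p.2.2 then 1 else 0) +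
      α0 ^ 2 * α1 * α2 * (if q.2.1 = p.2.1 ∧ q.2.2 = p.2.2 then 1 else 0) +
      α0 * α1 * α2 * (if q = p then 1 else 0) := by
    intro q _
    have hq : (q = p) ↔ (q.1 = p.1 ∧ q.2.1 = p.2.1 ∧ q.2.2 = p.2.2) := by
      rw [Prod.ext_iff, Prod.ext_iff]
    simp only [hq, eq_comm (a := p.1), eq_comm (a := p.2.1), eq_comm (a := p.2.2)]
    by_cases k0 : q.1 = p.1 <;> by_cases k1 : q.2.1 = p.2.1 <;> by_cases k2 : q.2.2 = p.2.2 <;>
      simp only [k0, k1, k2, if_true, if_false, and_true, and_false, and_self] <;> ring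
  rw [Finset.sum_congr rfl e]
  simp only [Finset.sum_add_distrib, ← Finset.mul_sum, Finset.sum_boole, Finset.sum_const,
    nsmul_eq_mul]
  have h3 : (T.filter fun q => q = p).card = 1 := by
    rw [Finset.filter_eq', if_pos hp, card_singleton]
  rw [h3]
  have b0 := c0 p.1
  have b1 := c1 p.2.1
  have b2 := c2 p.2.2
  have b01 := c01 p.1 p.2.1
  have b02 := c02 p.1 p.2.2
  have b12 := c12 p.2.1 p.2.2
  set t : ℝ := (T.card : ℝ)
  set P := α0 * α1 * α2 with hP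
  have hPpos : 0 < P := by positivity
  have m0 : α0 * α1 ^ 2 * α2 ^ 2 * ((T.filter fun q => q.1 = p.1).card : ℝ) ≤
      4 * (t * P ^ 2) := by
    have := mul_le_mul_of_nonneg_left b0 (show 0 ≤ α0 * α1 ^ 2 * α2 ^ 2 by positivity)
    rw [hP]; linarith
  have m1 : α0 ^ 2 * α1 * α2 ^ 2 * ((T.filter fun q => q.2.1 = p.2.1).card : ℝ) ≤
      4 * (t * P ^ 2) := by
    have := mul_le_mul_of_nonneg_left b1 (show 0 ≤ α0 ^ 2 * α1 * α2 ^ 2 by positivity)
    rw [hP]; linarith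
  have m2 : α0 ^ 2 * α1 ^ 2 * α2 * ((T.filter fun q => q.2.2 = p.2.2).card : ℝ) ≤
      4 * (t * P ^ 2) := by
    have := mul_le_mul_of_nonneg_left b2 (show 0 ≤ α0 ^ 2 * α1 ^ 2 * α2 by positivity)
    rw [hP]; linarith
  have m01 : α0 * α1 * α2 ^ 2 *
      ((T.filter fun q => q.1 = p.1 ∧ q.2.1 = p.2.1).card : ℝ) ≤ 16 * (t * P ^ 2) := by
    have := mul_le_mul_of_nonneg_left b01 (show 0 ≤ α0 * α1 * α2 ^ 2 by positivity)
    rw [hP]; linarith
  have m02 : α0 * α1 ^ 2 * α2 *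
      ((T.filter fun q => q.1 = p.1 ∧ q.2.2 = p.2.2).card : ℝ) ≤ 16 * (t * P ^ 2) := by
    have := mul_le_mul_of_nonneg_left b02 (show 0 ≤ α0 * α1 ^ 2 * α2 by positivity)
    rw [hP]; linarith
  have m12 : α0 ^ 2 * α1 * α2 *
      ((T.filter fun q => q.2.1 = p.2.1 ∧ q.2.2 = p.2.2).card : ℝ) ≤ 16 * (t * P ^ 2) := by
    have := mul_le_mul_of_nonneg_left b12 (show 0 ≤ α0 ^ 2 * α1 * α2 by positivity)
    rw [hP]; linarith
  have m3 : P ≤ 64 * (t * P ^ 2) := by
    have := mul_le_mul_of_nonneg_left c3 hPpos.le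
    linarith
  push_cast
  linarith

/-- **second moment bound** -/
theorem half' [Nonempty B] (T : Finset (V × V × V)) (A0 A1 A2 : Finset B)
    (h01 : ∀ x ∈ A0, x ∉ A1) (h02 : ∀ x ∈ A0, x ∉ A2) (h12 : ∀ x ∈ A1, x ∉ A2)
    (hT : ∀ p ∈ T, p.1 ≠ p.2.1 ∧ p.2.1 ≠ p.2.2 ∧ p.1 ≠ p.2.2) {α0 α1 α2 : ℝ}
    (e0 : (A0.card : ℝ) / Fintype.card B = α0) (e1 : (A1.card : ℝ) / Fintype.card B = α1)
    (e2 : (A2.card : ℝ) / Fintype.card B = α2) (p0 : 0 < α0) (p1 : 0 < α1)
    (p2 : 0 < α2) (c3 : 1 ≤ 64 * (α0 * α1 * α2 * T.card))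
    (c01 : ∀ x y, ((T.filter fun p => p.1 = x ∧ p.2.1 = y).card : ℝ) ≤ 16 * (α0 * α1 * T.card))
    (c02 : ∀ x z, ((T.filter fun p => p.1 = x ∧ p.2.2 = z).card : ℝ) ≤ 16 * (α0 * α2 * T.card))
    (c12 : ∀ y z, ((T.filter fun p => p.2.1 = y ∧ p.2.2 = z).card : ℝ) ≤ 16 * (α1 * α2 * T.card))
    (c0 : ∀ x, ((T.filter fun p => p.1 = x).card : ℝ) ≤ 4 * (α0 * T.card))
    (c1 : ∀ y, ((T.filter fun p => p.2.1 = y).card : ℝ) ≤ 4 * (α1 * T.card))
    (c2 : ∀ z, ((T.filter fun p => p.2.2 = z).card : ℝ) ≤ 4 * (α2 * T.card)) :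
    1 / 125 * (Fintype.card (V → B) : ℝ) ≤
      ((univ.filter fun f : V → B => ∃ p ∈ T, H3 A0 A1 A2 p f).card : ℝ) := by
  set Ω : ℝ := (Fintype.card (V → B) : ℝ) with hΩ
  have hΩ0 : 0 < Ω := by
    rw [hΩ]; exact_mod_cast Fintype.card_pos
  set Z : (V → B) → ℝ := fun f => ∑ p ∈ T, if H3 A0 A1 A2 p f then 1 else 0 with hZ
  set P := α0 * α1 * α2 with hP
  have hPpos : 0 < P := by positivity
  set t : ℝ := (T.card : ℝ) with ht
  have htpos : 0 < t := by
    by_contra hcon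
    push Not at hcon
    nlinarith
  have s1 : ∑ f, Z f = Ω * P * t := by
    simp only [hZ]
    rw [Finset.sum_comm]
    have : ∀ p ∈ T, ∑ f : V → B, (if H3 A0 A1 A2 p f then (1 : ℝ) else 0) = Ω * P := by
      intro p hp
      rw [Finset.sum_boole, one_count A0 A1 A2 p (hT p hp), e0, e1, e2]
    rw [Finset.sum_congr rfl this, Finset.sum_const, nsmul_eq_mul]
    ring
  have s2 : ∑ f, Z f ^ 2 ≤ Ω * (125 * (t * P) ^ 2) := by
    have : ∀ f, Z f ^ 2 = ∑ p ∈ T, ∑ q ∈ T,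
        if H3 A0 A1 A2 p f ∧ H3 A0 A1 A2 q f then (1 : ℝ) else 0 := by
      intro f
      simp only [hZ]
      rw [sq, Finset.sum_mul_sum]
      refine Finset.sum_congr rfl fun p _ => Finset.sum_congr rfl fun q _ => ?_
      by_cases k0 : H3 A0 A1 A2 p f <;> by_cases k1 : H3 A0 A1 A2 q f <;> simp [k0, k1]
    simp_rw [this]
    rw [Finset.sum_comm]
    have h1 : ∀ p ∈ T, ∑ f : V → B, ∑ q ∈ T,
        (if H3 A0 A1 A2 p f ∧ H3 A0 A1 A2 q f then (1 : ℝ) else 0) ≤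
        Ω * (125 * (t * P ^ 2)) := by
      intro p hp
      rw [Finset.sum_comm]
      have h2 : ∀ q ∈ T, ∑ f : V → B,
          (if H3 A0 A1 A2 p f ∧ H3 A0 A1 A2 q f then (1 : ℝ) else 0) ≤
          Ω * ((α0 ^ 2 + if p.1 = q.1 then α0 else 0) *
            (α1 ^ 2 + if p.2.1 = q.2.1 then α1 else 0) *
            (α2 ^ 2 + if p.2.2 = q.2.2 then α2 else 0)) := by
        intro q hq
        rw [Finset.sum_boole]
        exact two_count A0 A1 A2 h01 h02 h12 p q (hT p hp) (hT q hq) e0 e1 e2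
      refine (Finset.sum_le_sum h2).trans ?_
      rw [← Finset.mul_sum]
      exact mul_le_mul_of_nonneg_left
        (sum_second' T p0 p1 p2 c3 c01 c02 c12 c0 c1 c2 p hp) hΩ0.le
    refine (Finset.sum_le_sum h1).trans (le_of_eq ?_)
    rw [Finset.sum_const, nsmul_eq_mul]
    ring
  set S := (univ.filter fun f : V → B => ∃ p ∈ T, H3 A0 A1 A2 p f) with hS
  have s3 : ∑ f, Z f = ∑ f, (if f ∈ S then (1 : ℝ) else 0) * Z f := by
    refine Finset.sum_congr rfl fun f _ => ?_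
    by_cases hf : f ∈ S
    · rw [if_pos hf, one_mul]
    · rw [if_neg hf, zero_mul]
      simp only [hZ]
      refine Finset.sum_eq_zero fun p hp => ?_
      rw [if_neg]
      intro h
      exact hf (by rw [hS, mem_filter]; exact ⟨mem_univ _, p, hp, h⟩)
  have s4 := Finset.sum_mul_sq_le_sq_mul_sq univ (fun f => if f ∈ S then (1 : ℝ) else 0) Z
  rw [← s3, s1] at s4
  have s5 : ∑ f : V → B, (if f ∈ S then (1 : ℝ) else 0) ^ 2 = S.card := by
    simp
  rw [s5] at s4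
  have hScard : (0 : ℝ) ≤ S.card := by positivity
  have s6 : (Ω * P * t) ^ 2 ≤ S.card * (Ω * (125 * (t * P) ^ 2)) :=
    s4.trans (mul_le_mul_of_nonneg_left s2 hScard)
  have s7 : (Ω * (t * P) ^ 2) * Ω ≤ (Ω * (t * P) ^ 2) * (125 * S.card) := by
    calc _ = (Ω * P * t) ^ 2 := by ring
      _ ≤ _ := s6
      _ = _ := by ring
  have s8 := le_of_mul_le_mul_left s7 (by positivity)
  linarith

end moment

theorem void_cond {D t s : ℕ} (h0 : D ≤ t) (h : 0 < s → 512 * D * 2 ^ s ≤ t) :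
    (D : ℝ) * 2 ^ s ≤ t := by
  rcases Nat.eq_zero_or_pos s with rfl | hs
  · rw [pow_zero, mul_one]
    exact_mod_cast h0
  · have h1 := h hs
    have h2 : D * 2 ^ s ≤ 512 * D * 2 ^ s := Nat.mul_le_mul_right _ (by omega)
    exact_mod_cast h2.trans h1

/-- **Piece MOMS** -/
theorem moms : P_MOMS := by
  intro n T s1 s2 s3 hn hS a ha b hb c hc
  obtain ⟨hne, hs1, hs2, hs3, hd, k3, k12, k13, k23, k1, k2, k3'⟩ := hS
  have hbits : 2 ≤ bits n := by
    unfold bits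
    have : 1 ≤ Nat.log 2 n := Nat.log_pos (by norm_num) hn
    omega
  have hT1 : 1 ≤ T.card := Finset.card_pos.2 hne
  set m := bits n with hm
  set A0 := cell m 0 s1 a
  set A1 := cell m 1 s2 b
  set A2 := cell m 2 s3 c
  have e0 := card_cell m 0 s1 a hbits hs1.le (by norm_num) ha
  have e1 := card_cell m 1 s2 b hbits hs2.le (by norm_num) hb
  have e2 := card_cell m 2 s3 c hbits hs3.le (by norm_num) hc
  have q1 : (0 : ℝ) < 2 ^ s1 := by positivity
  have q2 : (0 : ℝ) < 2 ^ s2 := by positivity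
  have q3 : (0 : ℝ) < 2 ^ s3 := by positivity
  have : Nonempty (Fin (2 ^ m) × Fin (2 ^ m)) :=
    ⟨⟨⟨0, by positivity⟩, ⟨0, by positivity⟩⟩⟩
  have h := half' (V := Fin n) (B := Fin (2 ^ m) × Fin (2 ^ m)) T A0 A1 A2
    (fun x h h' => cell_disj m (by norm_num) h h') (fun x h h' => cell_disj m (by norm_num) h h')
    (fun x h h' => cell_disj m (by norm_num) h h') hd e0 e1 e2 (by positivity) (by positivity)
    (by positivity)
    (by
      have := void_cond (D := 1) (s := s1 + s2 + s3) hT1 (fun hh => by simpa using k3 hh)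
      rw [pow_add, pow_add] at this
      have e : 64 * ((1 : ℝ) / (4 * 2 ^ s1) * (1 / (4 * 2 ^ s2)) * (1 / (4 * 2 ^ s3)) * T.card) =
        T.card / (2 ^ s1 * 2 ^ s2 * 2 ^ s3) := by field_simp; ring
      rw [e, le_div_iff₀ (by positivity)]
      push_cast at this
      linarith)
    (by
      intro x y
      have := void_cond (Finset.card_le_card (Finset.filter_subset _ T)) fun hh => k12 hh x y
      rw [pow_add] at this
      have e : 16 * ((1 : ℝ) / (4 * 2 ^ s1) * (1 / (4 * 2 ^ s2)) * T.card) =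
        T.card / (2 ^ s1 * 2 ^ s2) := by field_simp; ring
      rw [e, le_div_iff₀ (by positivity)]
      linarith)
    (by
      intro x y
      have := void_cond (Finset.card_le_card (Finset.filter_subset _ T)) fun hh => k13 hh x y
      rw [pow_add] at this
      have e : 16 * ((1 : ℝ) / (4 * 2 ^ s1) * (1 / (4 * 2 ^ s3)) * T.card) =
        T.card / (2 ^ s1 * 2 ^ s3) := by field_simp; ring
      rw [e, le_div_iff₀ (by positivity)]
      linarith)
    (by
      intro x y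
      have := void_cond (Finset.card_le_card (Finset.filter_subset _ T)) fun hh => k23 hh x y
      rw [pow_add] at this
      have e : 16 * ((1 : ℝ) / (4 * 2 ^ s2) * (1 / (4 * 2 ^ s3)) * T.card) =
        T.card / (2 ^ s2 * 2 ^ s3) := by field_simp; ring
      rw [e, le_div_iff₀ (by positivity)]
      linarith)
    (by
      intro x
      have := void_cond (Finset.card_le_card (Finset.filter_subset _ T)) fun hh => k1 hh x
      have e : 4 * ((1 : ℝ) / (4 * 2 ^ s1) * T.card) = T.card / 2 ^ s1 := by field_simp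
      rw [e, le_div_iff₀ (by positivity)]
      linarith)
    (by
      intro x
      have := void_cond (Finset.card_le_card (Finset.filter_subset _ T)) fun hh => k2 hh x
      have e : 4 * ((1 : ℝ) / (4 * 2 ^ s2) * T.card) = T.card / 2 ^ s2 := by field_simp
      rw [e, le_div_iff₀ (by positivity)]
      linarith)
    (by
      intro x
      have := void_cond (Finset.card_le_card (Finset.filter_subset _ T)) fun hh => k3' hh x
      have e : 4 * ((1 : ℝ) / (4 * 2 ^ s3) * T.card) = T.card / 2 ^ s3 := by field_simp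
      rw [e, le_div_iff₀ (by positivity)]
      linarith)
  unfold prob
  have hΩ : (0 : ℝ) < Nat.card (Fin n → Fin (2 ^ bits n) × Fin (2 ^ bits n)) := by
    rw [Nat.card_eq_fintype_card]
    exact_mod_cast Fintype.card_pos
  rw [le_div_iff₀ hΩ]
  rw [Nat.card_eq_fintype_card]
  refine h.trans ?_
  classical
  rw [Nat.card_eq_fintype_card, Fintype.card_subtype]
  refine Nat.cast_le.2 (Finset.card_le_card ?_)
  intro f hf
  rw [mem_filter] at hf ⊢
  refine ⟨mem_univ _, ?_⟩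
  obtain ⟨-, p, hp, g0, g1, g2⟩ := hf
  have g0' := (mem_filter.1 g0).2
  have g1' := (mem_filter.1 g1).2
  have g2' := (mem_filter.1 g2).2
  exact ⟨p, hp, g0'.1, g1'.1, g2'.1, g0'.2, g1'.2, g2'.2⟩

end Pool.Agent.W2helper75.ETS
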